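import Pool.Agent.Helper38.FU.N3
import Pool.Agent.Helper90.FU.N1
import Pool.Agent.Helper94.FU.RowN2
import Pool.Agent.Helper17.N9.N9J
import Pool.Agent.Helper91.BX.T

/-!
Fused machine (MP_c75db0, star frame), row N4: blocks at the nodes.
-/

set_option autoImplicit false
set_option exponentiation.threshold 100000
noncomputable section
namespace Pool.Agent.Helper91.FU

open Finset
open Pool.Agent.Helper91
open Pool.Agent.Helper90.KMT (PT)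
open Pool.Agent.Helper90.KMO (UU UU_pos andB_t)
open Pool.Agent.Helper86.CX (andB)
open Pool.Agent.Helper91.TM (TP Sm Sz Sp Ev Nh zc tS vb xd ds SB)
open Pool.Agent.Helper90.C75 (avg Vt avg_add avg_sub avg_smul)
open Pool.Agent.Helper17.N9 (NVL NV NL NLR Tr lm3 lm4 MR2 BB R9 TE mkNL1 ndw nlg en nlg_0 nlg_1 nlg_2 nlg_leb
  avg_ndw_succ)
open Pool.Agent.Helper91.BX (tu)
open Pool.Agent.Helper6.MONO.W2 (Mt)

namespace N4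

/-! ### linearity -/

/-- the error of the economization -/
def ee (t : ℕ → ℝ) (p q : ℕ → ℝ) : ℂ := (⟨Er t p, Er t q⟩ : ℂ) - avg (ndw 3 t) (fun v : Vt 3 =>
  (⟨Un p v.1.1.2 v.1.2 v.2, Un q v.1.1.2 v.1.2 v.2⟩ : ℂ))

theorem Er_lin (t : ℕ → ℝ) (a b c : ℝ) (p p' p'' : ℕ → ℝ) :
    Er t (fun i => a * p i + b * p' i + c * p'' i) = a * Er t p + b * Er t p' + c * Er t p'' := by
  unfold Er
  rw [mul_sum, mul_sum, mul_sum, ← sum_add_distrib, ← sum_add_distrib]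
  exact sum_congr rfl fun i _ => by ring

theorem Un_lin (a b c : ℝ) (p p' p'' : ℕ → ℝ) (i0 i1 i2 : Fin 3) :
    Un (fun i => a * p i + b * p' i + c * p'' i) i0 i1 i2 =
      a * Un p i0 i1 i2 + b * Un p' i0 i1 i2 + c * Un p'' i0 i1 i2 := by
  unfold Un
  rw [mul_sum, mul_sum, mul_sum, ← sum_add_distrib, ← sum_add_distrib]
  exact sum_congr rfl fun i _ => by ring

theorem mk_lin (a b c x y z x' y' z' : ℝ) : (⟨a * x + b * y + c * z, a * x' + b * y' + c * z'⟩ : ℂ) =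
    (a : ℂ) * ⟨x, x'⟩ + (b : ℂ) * ⟨y, y'⟩ + (c : ℂ) * ⟨z, z'⟩ := by
  apply Complex.ext <;> simp

theorem ee_lin (t : ℕ → ℝ) (a b c : ℝ) (p q p' q' p'' q'' : ℕ → ℝ) :
    ee t (fun i => a * p i + b * p' i + c * p'' i) (fun i => a * q i + b * q' i + c * q'' i) =
      (a : ℂ) * ee t p q + (b : ℂ) * ee t p' q' + (c : ℂ) * ee t p'' q'' := by
  have h1 : avg (ndw 3 t) (fun v : Vt 3 =>
      (⟨Un (fun i => a * p i + b * p' i + c * p'' i) v.1.1.2 v.1.2 v.2,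
        Un (fun i => a * q i + b * q' i + c * q'' i) v.1.1.2 v.1.2 v.2⟩ : ℂ)) =
      (a : ℂ) * avg (ndw 3 t) (fun v : Vt 3 =>
        (⟨Un p v.1.1.2 v.1.2 v.2, Un q v.1.1.2 v.1.2 v.2⟩ : ℂ)) +
      (b : ℂ) * avg (ndw 3 t) (fun v : Vt 3 =>
        (⟨Un p' v.1.1.2 v.1.2 v.2, Un q' v.1.1.2 v.1.2 v.2⟩ : ℂ)) +
      (c : ℂ) * avg (ndw 3 t) (fun v : Vt 3 =>
        (⟨Un p'' v.1.1.2 v.1.2 v.2, Un q'' v.1.1.2 v.1.2 v.2⟩ : ℂ)) := by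
    rw [← avg_smul, ← avg_smul, ← avg_smul, ← avg_add, ← avg_add]
    congr 1
    funext v
    rw [Un_lin, Un_lin, mk_lin]
  unfold ee
  rw [h1, Er_lin, Er_lin, mk_lin]
  ring

theorem ee_le {t : ℕ → ℝ} (hP : PT 3 t) {p q : ℕ → ℝ} (hp : ∀ i, vb i = false → p i = 0)
    (hq : ∀ i, vb i = false → q i = 0) : ‖ee t p q‖ ≤ √(Cu p ^ 2 + Cu q ^ 2) := eco_avg hP hp hq

/-- entry number `K` -/
def wat (X : W9) (K : ℕ) : RW := match K with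
  | 0 => X.a | 1 => X.b | 2 => X.c | 3 => X.d | 4 => X.e | 5 => X.f | 6 => X.g | 7 => X.h | _ => X.i
def uat (X : U9) (K : ℕ) : ℕ := match K with
  | 0 => X.a | 1 => X.b | 2 => X.c | 3 => X.d | 4 => X.e | 5 => X.f | 6 => X.g | 7 => X.h | _ => X.i

/-! ### the data of a number at the nodes -/

/-- the rounding errors -/
def dl (k : ℕ) (p q : ℕ → ℤ) (n : Vt 3 → Fin 2 → ℤ) (v : Vt 3) : ℂ :=
  ⟨Un (fun i => (p i : ℝ)) v.1.1.2 v.1.2 v.2 / 2 ^ (34 + k) - n v 0,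
    Un (fun i => (q i : ℝ)) v.1.1.2 v.1.2 v.2 / 2 ^ (34 + k) - n v 1⟩

structure ND (k : ℕ) (t : ℕ → ℝ) (f : ℂ) (u : RW) (p q : ℕ → ℤ) (n : Vt 3 → Fin 2 → ℤ) :
    Prop where
  y : NY (yR u) p q
  dg : ∀ v : Vt 3, ((gt (uc (enR k u).u v.1.1.2) (320 * (v.1.2 : ℕ) + 1120 * (v.2 : ℕ)) MR2 : ℕ) : ℤ)
    = (2 ^ 40 + n v 0) + (2 ^ 40 + n v 1) * BB
  bd : ∀ v e, |n v e| ≤ 2 ^ 39
  er : ∀ v, -(1 / 2 ^ 10 : ℝ) ≤ (dl k p q n v).re ∧ (dl k p q n v).re ≤ 1 + 1 / 2 ^ 10 ∧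
    -(1 / 2 ^ 10 : ℝ) ≤ (dl k p q n v).im ∧ (dl k p q n v).im ≤ 1 + 1 / 2 ^ 10
  f : ‖2 ^ 62 * f - (⟨Er t (fun i => (p i : ℝ)), Er t (fun i => (q i : ℝ))⟩ : ℂ)‖ ≤
    (tlR u : ℝ) / 2 ^ 34

theorem nd_ok {c k : ℕ} (hc : c ≤ 16) (hk : k ≤ 20) {t : ℕ → ℝ} {f : ℂ} {u : RW}
    (h : RV c t f u) (hu : (enR k u).k = true) : ∃ p q n, ND k t f u p q n := by
  have hu' : andB u.k (Nat.ble (dw u.D) (nat_lit 162259276828032771770860598984704)) = true := hu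
  obtain ⟨hk1, hk2⟩ := andB_t hu'
  obtain ⟨p, q, m, hr, hf⟩ := h hk1
  have hy : NY (yR u) p q := yR_ok hr hc hk2
  have hl := fun v : Vt 3 => leafN hk hy v.1.1.2 v.1.2 v.2
  choose a b h1 h2 h3 h4 h5 h6 h7 using hl
  have hw : Wt 15 m ≤ 16 * 2 ^ 128 := hr.w.trans (Nat.mul_le_mul_right _ hc)
  have ht : tlR u = Tl m := by
    unfold tlR
    rw [hr.D]
    exact tl_eq hw
  refine ⟨p, q, fun v => ![a v, b v], hy, fun v => ?_, fun v e => ?_, fun v => ?_, ?_⟩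
  · exact h1 v
  · fin_cases e
    · exact h2 v
    · exact h3 v
  · exact ⟨h4 v, h5 v, h6 v, h7 v⟩
  · rw [ht, ← Ev_zc]
    exact hf

theorem sc2 (k : ℕ) : (2 ^ 28 / 2 ^ k : ℂ) = 2 ^ 62 / 2 ^ (34 + k) := by
  rw [pow_add]
  field_simp

theorem mk_sc (g x y a b : ℝ) : (⟨g * x - a, g * y - b⟩ : ℂ) = (g : ℂ) * ⟨x, y⟩ - ⟨a, b⟩ := by
  apply Complex.ext <;> simp

theorem av_mk (k : ℕ) (t : ℕ → ℝ) (p q : ℕ → ℤ) (n : Vt 3 → Fin 2 → ℤ) :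
    avg (ndw 3 t) (dl k p q n) = avg (ndw 3 t) (fun v : Vt 3 =>
      (⟨Un (fun i => (p i : ℝ)) v.1.1.2 v.1.2 v.2, Un (fun i => (q i : ℝ)) v.1.1.2 v.1.2 v.2⟩ : ℂ)) /
      2 ^ (34 + k) - avg (ndw 3 t) (fun v => (⟨((n v 0 : ℤ) : ℝ), ((n v 1 : ℤ) : ℝ)⟩ : ℂ)) := by
  rw [div_eq_inv_mul, ← avg_smul, ← avg_sub]
  congr 1
  funext v
  have e : ((2 : ℂ) ^ (34 + k))⁻¹ = (((2 ^ (34 + k) : ℝ)⁻¹ : ℝ) : ℂ) := by push_cast; rfl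
  rw [e, ← mk_sc]
  unfold dl
  rw [div_eq_inv_mul, div_eq_inv_mul]

/-- the three parts of the error -/
theorem key3 (k : ℕ) (t : ℕ → ℝ) (f : ℂ) (p q : ℕ → ℤ) (n : Vt 3 → Fin 2 → ℤ) :
    (2 ^ 28 / 2 ^ k : ℂ) * f - avg (ndw 3 t) (fun v => (⟨((n v 0 : ℤ) : ℝ), ((n v 1 : ℤ) : ℝ)⟩ : ℂ)) =
      ((2 ^ 62 * f - (⟨Er t (fun i => (p i : ℝ)), Er t (fun i => (q i : ℝ))⟩ : ℂ)) +
        ee t (fun i => (p i : ℝ)) (fun i => (q i : ℝ))) / 2 ^ (34 + k) +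
        avg (ndw 3 t) (dl k p q n) := by
  rw [av_mk, sc2]
  unfold ee
  ring

theorem dvR {a b : ℕ} : (a : ℝ) / 2 ^ b ≤ ((Nat.shiftRight a b : ℕ) : ℝ) + 1 := by
  rw [show Nat.shiftRight a b = a / 2 ^ b from Nat.shiftRight_eq_div_pow a b]
  have h := Nat.lt_div_mul_add (a := a) (show 0 < 2 ^ b by positivity)
  rw [div_le_iff₀ (by positivity)]
  have h' : (a : ℝ) ≤ ((a / 2 ^ b * 2 ^ b + 2 ^ b : ℕ) : ℝ) := by exact_mod_cast h.le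
  refine h'.trans (le_of_eq ?_)
  push_cast
  ring

theorem sqC (x y : ℝ) : 0 ≤ √(x ^ 2 + y ^ 2) := Real.sqrt_nonneg _

/-- the scale of the cubic part -/
theorem cu_sc {s c : ℝ} {k : ℕ} (h : 2 ^ 13 * s ≤ c + 2 ^ 12) :
    s / 2 ^ (34 + k) ≤ c / 2 ^ (47 + k) + 1 / 100 := by
  have e : (2 : ℝ) ^ (47 + k) = 2 ^ 13 * 2 ^ (34 + k) := by
    rw [← pow_add]
    congr 1
    omega
  have h2 : (2 : ℝ) ^ 34 ≤ 2 ^ (34 + k) := pow_le_pow_right₀ (by norm_num) (by omega)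
  have hp : (0 : ℝ) < 2 ^ (34 + k) := by positivity
  have h3 : s / 2 ^ (34 + k) = 2 ^ 13 * s / 2 ^ (47 + k) := by
    rw [e]
    field_simp
  rw [h3, e]
  have h4 : 2 ^ 13 * s / (2 ^ 13 * 2 ^ (34 + k)) ≤ (c + 2 ^ 12) / (2 ^ 13 * 2 ^ (34 + k)) := by
    gcongr
  refine h4.trans ?_
  rw [add_div]
  refine add_le_add_right ?_ _
  rw [div_le_div_iff₀ (by positivity) (by norm_num)]
  nlinarith

/-- the scale of the tail -/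
theorem tl_sc (T : ℝ) (k : ℕ) : T / 2 ^ 34 / 2 ^ (34 + k) = T / 2 ^ (68 + k) := by
  rw [div_div, ← pow_add]
  congr 2
  omega

theorem nD (k : ℕ) : ‖(2 : ℂ) ^ (34 + k)‖ = 2 ^ (34 + k) := by
  rw [norm_pow, Complex.norm_ofNat]

theorem ra1_ge (k c T : ℕ) : (c : ℝ) / 2 ^ (47 + k) + (T : ℝ) / 2 ^ (68 + k) + 3 ≤ (ra1 k c T : ℝ) := by
  have e : ra1 k c T = Nat.shiftRight c (47 + k) + Nat.shiftRight T (68 + k) + 5 := rfl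
  have h1 := @dvR c (47 + k)
  have h2 := @dvR T (68 + k)
  rw [e]
  push_cast
  linarith

theorem rb1_ge (k c T : ℕ) : (c : ℝ) / 2 ^ (47 + k) + 5 / 4 * ((T : ℝ) / 2 ^ (68 + k)) + 6 ≤
    (rb1 k c T : ℝ) := by
  have e : rb1 k c T = Nat.shiftRight c (47 + k) + Nat.shiftRight (5 * T) (70 + k) + 8 := rfl
  have h1 := @dvR c (47 + k)
  have h2 := @dvR (5 * T) (70 + k)
  have h3 : 5 / 4 * ((T : ℝ) / 2 ^ (68 + k)) = ((5 * T : ℕ) : ℝ) / 2 ^ (70 + k) := by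
    rw [show 70 + k = 68 + k + 2 by omega, pow_add _ (68 + k) 2]
    push_cast
    field_simp
    ring
  rw [e, h3]
  push_cast at h2 ⊢
  linarith

theorem mo2_max (a b : ℕ) : mo2 a b = max a b := by
  show a + (b - a) = max a b
  omega

/-- the error of a number at the nodes -/
theorem nd_err {k : ℕ} {t : ℕ → ℝ} (hP : PT 3 t) {f : ℂ} {u : RW} {p q : ℕ → ℤ}
    {n : Vt 3 → Fin 2 → ℤ} (h : ND k t f u p q n) :
    ‖(2 ^ 28 / 2 ^ k : ℂ) * f - avg (ndw 3 t) (fun v => (⟨((n v 0 : ℤ) : ℝ), ((n v 1 : ℤ) : ℝ)⟩ : ℂ))‖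
      ≤ ((enR k u).r : ℝ) := by
  rw [key3 k t f p q n]
  have hp : ∀ i, vb i = false → (fun i => (p i : ℝ)) i = 0 := fun i hi => by
    show (p i : ℝ) = 0
    rw [h.y.sp i hi, Int.cast_zero]
  have hq : ∀ i, vb i = false → (fun i => (q i : ℝ)) i = 0 := fun i hi => by
    show (q i : ℝ) = 0
    rw [h.y.sq i hi, Int.cast_zero]
  have h1 := ee_le hP hp hq
  have h2 := fl_avg (D := 3) (by norm_num) hP h.er
  rw [if_pos (le_refl 3)] at h2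
  have h3 := cbA_ok h.y
  have h4 := cu_sc (k := k) h3
  have h5 := ra1_ge k (cbA (abY (yR u))) (tlR u)
  have e : (enR k u).r = ra1 k (cbA (abY (yR u))) (tlR u) := rfl
  rw [e]
  have hn : (0 : ℝ) < 2 ^ (34 + k) := by positivity
  have h6 : ‖((2 ^ 62 * f - (⟨Er t (fun i => (p i : ℝ)), Er t (fun i => (q i : ℝ))⟩ : ℂ)) +
      ee t (fun i => (p i : ℝ)) (fun i => (q i : ℝ))) / 2 ^ (34 + k)‖ ≤
      (tlR u : ℝ) / 2 ^ (68 + k) + ((cbA (abY (yR u)) : ℝ) / 2 ^ (47 + k) + 1 / 100) := by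
    rw [norm_div, nD]
    have h7 := (norm_add_le _ _).trans (add_le_add h.f h1)
    refine (div_le_div_of_nonneg_right h7 hn.le).trans ?_
    rw [add_div, tl_sc]
    gcongr
  refine (norm_add_le _ _).trans ?_
  linarith

end N4

/-- A NUMBER AT THE NODES -/
theorem en_ok {c k : ℕ} (hc : c ≤ 16) (hk : k ≤ 20) {t : ℕ → ℝ} (hP : PT 3 t) {f : ℂ} {u : RW}
    (h : RV c t f u) (hu : (enR k u).k = true) : ∃ n : Vt 3 → Fin 2 → ℤ,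
    (∀ v : Vt 3, ((gt (uc (enR k u).u v.1.1.2) (320 * (v.1.2 : ℕ) + 1120 * (v.2 : ℕ)) MR2 : ℕ) : ℤ) =
      (2 ^ 40 + n v 0) + (2 ^ 40 + n v 1) * BB) ∧ (∀ v e, |n v e| ≤ 2 ^ 39) ∧
    ‖(2 ^ 28 / 2 ^ k : ℂ) * f - avg (ndw 3 t) (fun v => (⟨((n v 0 : ℤ) : ℝ), ((n v 1 : ℤ) : ℝ)⟩ : ℂ))‖
      ≤ ((enR k u).r : ℝ) := by
  obtain ⟨p, q, n, h1⟩ := N4.nd_ok hc hk h hu
  exact ⟨n, h1.dg, h1.bd, N4.nd_err hP h1⟩

/-! ### matrices -/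

namespace N4

theorem RM_at {c : ℕ} {t : ℕ → ℝ} {M : Mt} {X : W9} (h : RM c t M X) : ∀ K < 9,
    RV c t (en M (K / 3) (K % 3)) (wat X K) := by
  obtain ⟨h0, h1, h2, h3, h4, h5, h6, h7, h8⟩ := h
  intro K hK
  interval_cases K
  exacts [h0, h1, h2, h3, h4, h5, h6, h7, h8]

theorem ok_at {X : W9} {k : ℕ} (h : (nv3 X k).ok = true) : ∀ K < 9, (enR k (wat X K)).k = true := by
  have h' : okE9 (e9W k X) = true := h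
  unfold okE9 at h'
  obtain ⟨h0, h'⟩ := andB_t h'
  obtain ⟨h1, h'⟩ := andB_t h'
  obtain ⟨h2, h'⟩ := andB_t h'
  obtain ⟨h3, h'⟩ := andB_t h'
  obtain ⟨h4, h'⟩ := andB_t h'
  obtain ⟨h5, h'⟩ := andB_t h'
  obtain ⟨h6, h'⟩ := andB_t h'
  obtain ⟨h7, h8⟩ := andB_t h'
  intro K hK
  interval_cases K
  exacts [h0, h1, h2, h3, h4, h5, h6, h7, h8]

theorem r_at (X : W9) (k : ℕ) : ∀ K < 9, (nv3 X k).r.at K = (enR k (wat X K)).r := by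
  intro K hK
  interval_cases K <;> rfl

theorem r4_at (X Y Z : W9) (k : ℕ) : ∀ K < 9, (nv4 X Y Z k).r.at K =
    rb4 k (wat X K) (wat Y K) (wat Z K) := by
  intro K hK
  interval_cases K <;> rfl

theorem lm3_tre (A C B : U9) (u : Vt 3) : lm3 (tre A C B) u =
    lfU ((![A, C, B] : Fin 3 → U9) u.1.1.2) (320 * (u.1.2 : ℕ) + 1120 * (u.2 : ℕ)) := by
  obtain ⟨⟨⟨_, i0⟩, i1⟩, i2⟩ := u
  fin_cases i0 <;> fin_cases i1 <;> fin_cases i2 <;> rfl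

theorem lf_at (U : U9) (s : ℕ) : ∀ K < 9, (lfU U s).at K = gt (uat U K) s MR2 := by
  intro K hK
  interval_cases K <;> rfl

theorem un_at (X : W9) (k : ℕ) (i : Fin 3) : ∀ K < 9, uat ((![
    ⟨(enR k X.a).u.a, (enR k X.b).u.a, (enR k X.c).u.a, (enR k X.d).u.a, (enR k X.e).u.a,
      (enR k X.f).u.a, (enR k X.g).u.a, (enR k X.h).u.a, (enR k X.i).u.a⟩,
    ⟨(enR k X.a).u.c, (enR k X.b).u.c, (enR k X.c).u.c, (enR k X.d).u.c, (enR k X.e).u.c,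
      (enR k X.f).u.c, (enR k X.g).u.c, (enR k X.h).u.c, (enR k X.i).u.c⟩,
    ⟨(enR k X.a).u.b, (enR k X.b).u.b, (enR k X.c).u.b, (enR k X.d).u.b, (enR k X.e).u.b,
      (enR k X.f).u.b, (enR k X.g).u.b, (enR k X.h).u.b, (enR k X.i).u.b⟩] : Fin 3 → U9) i) K =
      uc (enR k (wat X K)).u i := by
  intro K hK
  fin_cases i <;> interval_cases K <;> rfl

/-- a leaf -/
theorem leaf_ok {k : ℕ} {t : ℕ → ℝ} {M : Mt} {X : W9} {p q : ℕ → ℕ → ℤ}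
    {n : ℕ → Vt 3 → Fin 2 → ℤ}
    (h : ∀ K < 9, ND k t (en M (K / 3) (K % 3)) (wat X K) (p K) (q K) (n K)) (u : Vt 3) :
    NLR (lm3 (nv3 X k).v u) (fun K => n K u) := by
  have e : lm3 (nv3 X k).v u = lfU ((![
    ⟨(enR k X.a).u.a, (enR k X.b).u.a, (enR k X.c).u.a, (enR k X.d).u.a, (enR k X.e).u.a,
      (enR k X.f).u.a, (enR k X.g).u.a, (enR k X.h).u.a, (enR k X.i).u.a⟩,
    ⟨(enR k X.a).u.c, (enR k X.b).u.c, (enR k X.c).u.c, (enR k X.d).u.c, (enR k X.e).u.c,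
      (enR k X.f).u.c, (enR k X.g).u.c, (enR k X.h).u.c, (enR k X.i).u.c⟩,
    ⟨(enR k X.a).u.b, (enR k X.b).u.b, (enR k X.c).u.b, (enR k X.d).u.b, (enR k X.e).u.b,
      (enR k X.f).u.b, (enR k X.g).u.b, (enR k X.h).u.b, (enR k X.i).u.b⟩] : Fin 3 → U9) u.1.1.2)
      (320 * (u.1.2 : ℕ) + 1120 * (u.2 : ℕ)) := lm3_tre _ _ _ u
  rw [e]
  refine ⟨fun K hK => ?_, rfl, fun K hK e => (h K hK).bd u e⟩
  rw [lf_at _ _ K hK, un_at X k _ K hK]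
  exact (h K hK).dg u

theorem nd_all {c k : ℕ} (hc : c ≤ 16) (hk : k ≤ 20) {t : ℕ → ℝ} {M : Mt} {X : W9}
    (h : RM c t M X) (ho : (nv3 X k).ok = true) : ∃ (p q : ℕ → ℕ → ℤ) (n : ℕ → Vt 3 → Fin 2 → ℤ),
    ∀ K < 9, ND k t (en M (K / 3) (K % 3)) (wat X K) (p K) (q K) (n K) := by
  have h1 : ∀ K, ∃ p q n, K < 9 → ND k t (en M (K / 3) (K % 3)) (wat X K) p q n := by
    intro K
    by_cases hK : K < 9
    · obtain ⟨p, q, n, h2⟩ := nd_ok hc hk (RM_at h K hK) (ok_at ho K hK)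
      exact ⟨p, q, n, fun _ => h2⟩
    · exact ⟨0, 0, 0, fun h => absurd h hK⟩
  choose p q n h2 using h1
  exact ⟨p, q, n, h2⟩

/-! ### three values of a parameter -/

/-- the cubic parts -/
theorem cub4 {t : ℕ → ℝ} (hP : PT 3 t) {u : ℝ} (h0 : 0 ≤ u) (h1 : u ≤ 1) {X Y Z : ℕ}
    {p0 q0 p1 q1 p2 q2 : ℕ → ℤ} (hx : NY X p0 q0) (hy : NY Y p1 q1) (hz : NY Z p2 q2) :
    2 ^ 13 * ‖(nlg 0 u : ℂ) * ee t (fun i => (p0 i : ℝ)) (fun i => (q0 i : ℝ)) +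
      (nlg 1 u : ℂ) * ee t (fun i => (p1 i : ℝ)) (fun i => (q1 i : ℝ)) +
      (nlg 2 u : ℂ) * ee t (fun i => (p2 i : ℝ)) (fun i => (q2 i : ℝ))‖ ≤
      (mx3 (cbA (abY X)) (cbM X Y Z) (cbA (abY Z)) : ℝ) + 2 ^ 12 := by
  have sx := fun i hi => hx.sp i hi
  have hr : ∀ (p : ℕ → ℤ), Sp p → ∀ i, vb i = false → (p i : ℝ) = 0 := fun p hp i hi => by
    rw [hp i hi, Int.cast_zero]
  have a0 := ee_le (t := t) hP (hr p0 hx.sp) (hr q0 hx.sq)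
  have a2 := ee_le (t := t) hP (hr p2 hz.sp) (hr q2 hz.sq)
  have a1 := ee_le (t := t) hP (p := fun i => 2 * (p1 i : ℝ) - ((p0 i : ℝ) + p2 i) / 2)
    (q := fun i => 2 * (q1 i : ℝ) - ((q0 i : ℝ) + q2 i) / 2)
    (fun i hi => by
      show 2 * (p1 i : ℝ) - ((p0 i : ℝ) + p2 i) / 2 = 0
      rw [hr p0 hx.sp i hi, hr p1 hy.sp i hi, hr p2 hz.sp i hi]; norm_num)
    (fun i hi => by
      show 2 * (q1 i : ℝ) - ((q0 i : ℝ) + q2 i) / 2 = 0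
      rw [hr q0 hx.sq i hi, hr q1 hy.sq i hi, hr q2 hz.sq i hi]; norm_num)
  have b0 := cbA_ok hx
  have b1 := cbM_ok hx hy hz
  have b2 := cbA_ok hz
  have em : ee t (fun i => 2 * (p1 i : ℝ) - ((p0 i : ℝ) + p2 i) / 2)
      (fun i => 2 * (q1 i : ℝ) - ((q0 i : ℝ) + q2 i) / 2) =
      ((-1 / 2 : ℝ) : ℂ) * ee t (fun i => (p0 i : ℝ)) (fun i => (q0 i : ℝ)) +
      ((2 : ℝ) : ℂ) * ee t (fun i => (p1 i : ℝ)) (fun i => (q1 i : ℝ)) +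
      ((-1 / 2 : ℝ) : ℂ) * ee t (fun i => (p2 i : ℝ)) (fun i => (q2 i : ℝ)) := by
    rw [← ee_lin]
    congr 1
    · funext i
      ring
    · funext i
      ring
  have e : (nlg 0 u : ℂ) * ee t (fun i => (p0 i : ℝ)) (fun i => (q0 i : ℝ)) +
      (nlg 1 u : ℂ) * ee t (fun i => (p1 i : ℝ)) (fun i => (q1 i : ℝ)) +
      (nlg 2 u : ℂ) * ee t (fun i => (p2 i : ℝ)) (fun i => (q2 i : ℝ)) =
      (((1 - u) ^ 2 : ℝ) : ℂ) * ee t (fun i => (p0 i : ℝ)) (fun i => (q0 i : ℝ)) +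
      ((2 * u * (1 - u) : ℝ) : ℂ) * ee t (fun i => 2 * (p1 i : ℝ) - ((p0 i : ℝ) + p2 i) / 2)
        (fun i => 2 * (q1 i : ℝ) - ((q0 i : ℝ) + q2 i) / 2) +
      ((u ^ 2 : ℝ) : ℂ) * ee t (fun i => (p2 i : ℝ)) (fun i => (q2 i : ℝ)) := by
    rw [em, nlg_0, nlg_1, nlg_2]
    push_cast
    ring
  have hm : (mx3 (cbA (abY X)) (cbM X Y Z) (cbA (abY Z))) =
      max (cbA (abY X)) (max (cbM X Y Z) (cbA (abY Z))) := by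
    unfold mx3
    rw [mo2_max, mo2_max]
  rw [e, hm]
  generalize ee t (fun i => (p0 i : ℝ)) (fun i => (q0 i : ℝ)) = z0 at *
  generalize ee t (fun i => (p2 i : ℝ)) (fun i => (q2 i : ℝ)) = z2 at *
  generalize ee t (fun i => 2 * (p1 i : ℝ) - ((p0 i : ℝ) + p2 i) / 2)
    (fun i => 2 * (q1 i : ℝ) - ((q0 i : ℝ) + q2 i) / 2) = z1 at *
  set C := max (cbA (abY X)) (max (cbM X Y Z) (cbA (abY Z))) with hC
  have c0 : (cbA (abY X) : ℝ) ≤ C := by exact_mod_cast le_max_left _ _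
  have c1 : (cbM X Y Z : ℝ) ≤ C := by
    exact_mod_cast (le_max_left _ _).trans (le_max_right _ _)
  have c2 : (cbA (abY Z) : ℝ) ≤ C := by
    exact_mod_cast (le_max_right _ _).trans (le_max_right _ _)
  have d0 : 2 ^ 13 * ‖z0‖ ≤ (C : ℝ) + 2 ^ 12 := by linarith
  have d1 : 2 ^ 13 * ‖z1‖ ≤ (C : ℝ) + 2 ^ 12 := by linarith
  have d2 : 2 ^ 13 * ‖z2‖ ≤ (C : ℝ) + 2 ^ 12 := by linarith
  have w0 : 0 ≤ (1 - u) ^ 2 := sq_nonneg _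
  have w1 : 0 ≤ 2 * u * (1 - u) := mul_nonneg (by linarith) (by linarith)
  have w2 : 0 ≤ u ^ 2 := sq_nonneg _
  have nn : ‖(((1 - u) ^ 2 : ℝ) : ℂ) * z0 + ((2 * u * (1 - u) : ℝ) : ℂ) * z1 +
      ((u ^ 2 : ℝ) : ℂ) * z2‖ ≤ (1 - u) ^ 2 * ‖z0‖ + 2 * u * (1 - u) * ‖z1‖ + u ^ 2 * ‖z2‖ := by
    refine (norm_add_le _ _).trans (add_le_add ((norm_add_le _ _).trans (add_le_add ?_ ?_)) ?_)
    · rw [norm_mul, Complex.norm_real, Real.norm_of_nonneg w0]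
    · rw [norm_mul, Complex.norm_real, Real.norm_of_nonneg w1]
    · rw [norm_mul, Complex.norm_real, Real.norm_of_nonneg w2]
  have g0 := mul_le_mul_of_nonneg_left d0 w0
  have g1 := mul_le_mul_of_nonneg_left d1 w1
  have g2 := mul_le_mul_of_nonneg_left d2 w2
  have gs : (1 - u) ^ 2 * ((C : ℝ) + 2 ^ 12) + 2 * u * (1 - u) * ((C : ℝ) + 2 ^ 12) +
      u ^ 2 * ((C : ℝ) + 2 ^ 12) = (C : ℝ) + 2 ^ 12 := by ring
  linarith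

theorem ndw_tu (t : ℕ → ℝ) (u : ℝ) : ndw 3 (tu 3 t u) = ndw 3 t := rfl

theorem PT_of {t : ℕ → ℝ} {u : ℝ} (h : PT 4 (tu 3 t u)) : PT 3 t ∧ 0 ≤ u ∧ u ≤ 1 := by
  refine ⟨⟨fun j hj => ?_, fun j hj => ?_, by norm_num⟩, ?_, ?_⟩
  · have := h.h0 j (by omega)
    rwa [Pool.Agent.Helper91.BX.tu_lt hj] at this
  · have := h.h1 j (by omega)
    rwa [Pool.Agent.Helper91.BX.tu_lt hj] at this
  · have := h.h0 3 (by omega)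
    rwa [Pool.Agent.Helper91.BX.tu_self] at this
  · have := h.h1 3 (by omega)
    rwa [Pool.Agent.Helper91.BX.tu_self] at this

/-- the error of a number of a family -/
theorem nd_err4 {k : ℕ} {t : ℕ → ℝ} {u : ℝ} (hP : PT 4 (tu 3 t u)) {f0 f1 f2 : ℂ} {x y z : RW}
    {p0 q0 p1 q1 p2 q2 : ℕ → ℤ} {n0 n1 n2 : Vt 3 → Fin 2 → ℤ} (h0 : ND k t f0 x p0 q0 n0)
    (h1 : ND k t f1 y p1 q1 n1) (h2 : ND k t f2 z p2 q2 n2) :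
    ‖(2 ^ 28 / 2 ^ k : ℂ) * ((nlg 0 u : ℂ) * f0 + (nlg 1 u : ℂ) * f1 + (nlg 2 u : ℂ) * f2) -
      avg (ndw 4 (tu 3 t u)) (fun v : Vt 4 =>
        (⟨(((![n0, n1, n2] : Fin 3 → Vt 3 → Fin 2 → ℤ) v.2 v.1 0 : ℤ) : ℝ),
          (((![n0, n1, n2] : Fin 3 → Vt 3 → Fin 2 → ℤ) v.2 v.1 1 : ℤ) : ℝ)⟩ : ℂ))‖
      ≤ (rb4 k x y z : ℝ) := by
  obtain ⟨hP3, hu0, hu1⟩ := PT_of hP
  -- the rounding errors
  have hd := fl_avg (D := 4) (le_refl 4) hP (a := fun v : Vt 4 =>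
    (![dl k p0 q0 n0, dl k p1 q1 n1, dl k p2 q2 n2] : Fin 3 → Vt 3 → ℂ) v.2 v.1) (fun v => by
      obtain ⟨v, i⟩ := v
      fin_cases i
      · exact h0.er v
      · exact h1.er v
      · exact h2.er v)
  rw [if_neg (by norm_num : ¬ 4 ≤ 3), avg_ndw_succ, ndw_tu, Pool.Agent.Helper91.BX.tu_self] at hd
  rw [avg_ndw_succ, ndw_tu, Pool.Agent.Helper91.BX.tu_self]
  have k0 := key3 k t f0 p0 q0 n0
  have k1 := key3 k t f1 p1 q1 n1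
  have k2 := key3 k t f2 p2 q2 n2
  have hc := cub4 hP3 hu0 hu1 h0.y h1.y h2.y
  have hc' := cu_sc (k := k) hc
  have hr := rb1_ge k (mx3 (cbA (abY (yR x))) (cbM (yR x) (yR y) (yR z)) (cbA (abY (yR z))))
    (mx3 (tlR x) (tlR y) (tlR z))
  have er : rb4 k x y z = rb1 k (mx3 (cbA (abY (yR x))) (cbM (yR x) (yR y) (yR z))
    (cbA (abY (yR z)))) (mx3 (tlR x) (tlR y) (tlR z)) := rfl
  rw [er]
  refine le_trans ?_ hr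
  have hm : mx3 (tlR x) (tlR y) (tlR z) = max (tlR x) (max (tlR y) (tlR z)) := by
    unfold mx3
    rw [mo2_max, mo2_max]
  have t0 : (tlR x : ℝ) ≤ (mx3 (tlR x) (tlR y) (tlR z) : ℕ) := by
    rw [hm]
    exact_mod_cast le_max_left _ _
  have t1 : (tlR y : ℝ) ≤ (mx3 (tlR x) (tlR y) (tlR z) : ℕ) := by
    rw [hm]
    exact_mod_cast (le_max_left _ _).trans (le_max_right _ _)
  have t2 : (tlR z : ℝ) ≤ (mx3 (tlR x) (tlR y) (tlR z) : ℕ) := by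
    rw [hm]
    exact_mod_cast (le_max_right _ _).trans (le_max_right _ _)
  have g0 := h0.f
  have g1 := h1.f
  have g2 := h2.f
  generalize (mx3 (tlR x) (tlR y) (tlR z)) = T at *
  generalize (mx3 (cbA (abY (yR x))) (cbM (yR x) (yR y) (yR z)) (cbA (abY (yR z)))) = C at *
  generalize ee t (fun i => (p0 i : ℝ)) (fun i => (q0 i : ℝ)) = e0 at *
  generalize ee t (fun i => (p1 i : ℝ)) (fun i => (q1 i : ℝ)) = e1 at *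
  generalize ee t (fun i => (p2 i : ℝ)) (fun i => (q2 i : ℝ)) = e2 at *
  generalize (2 ^ 62 * f0 - (⟨Er t (fun i => (p0 i : ℝ)), Er t (fun i => (q0 i : ℝ))⟩ : ℂ)) = d0 at *
  generalize (2 ^ 62 * f1 - (⟨Er t (fun i => (p1 i : ℝ)), Er t (fun i => (q1 i : ℝ))⟩ : ℂ)) = d1 at *
  generalize (2 ^ 62 * f2 - (⟨Er t (fun i => (p2 i : ℝ)), Er t (fun i => (q2 i : ℝ))⟩ : ℂ)) = d2 at *
  have a0 : avg (ndw 3 t) (fun v => (fun v : Vt 4 =>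
        (⟨(((![n0, n1, n2] : Fin 3 → Vt 3 → Fin 2 → ℤ) v.2 v.1 0 : ℤ) : ℝ),
          (((![n0, n1, n2] : Fin 3 → Vt 3 → Fin 2 → ℤ) v.2 v.1 1 : ℤ) : ℝ)⟩ : ℂ)) (v, 0)) =
      avg (ndw 3 t) (fun v => (⟨((n0 v 0 : ℤ) : ℝ), ((n0 v 1 : ℤ) : ℝ)⟩ : ℂ)) := rfl
  have a1 : avg (ndw 3 t) (fun v => (fun v : Vt 4 =>
        (⟨(((![n0, n1, n2] : Fin 3 → Vt 3 → Fin 2 → ℤ) v.2 v.1 0 : ℤ) : ℝ),
          (((![n0, n1, n2] : Fin 3 → Vt 3 → Fin 2 → ℤ) v.2 v.1 1 : ℤ) : ℝ)⟩ : ℂ)) (v, 1)) =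
      avg (ndw 3 t) (fun v => (⟨((n1 v 0 : ℤ) : ℝ), ((n1 v 1 : ℤ) : ℝ)⟩ : ℂ)) := rfl
  have a2 : avg (ndw 3 t) (fun v => (fun v : Vt 4 =>
        (⟨(((![n0, n1, n2] : Fin 3 → Vt 3 → Fin 2 → ℤ) v.2 v.1 0 : ℤ) : ℝ),
          (((![n0, n1, n2] : Fin 3 → Vt 3 → Fin 2 → ℤ) v.2 v.1 1 : ℤ) : ℝ)⟩ : ℂ)) (v, 2)) =
      avg (ndw 3 t) (fun v => (⟨((n2 v 0 : ℤ) : ℝ), ((n2 v 1 : ℤ) : ℝ)⟩ : ℂ)) := rfl
  have b0 : avg (ndw 3 t) (fun v => (fun v : Vt 4 =>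
    (![dl k p0 q0 n0, dl k p1 q1 n1, dl k p2 q2 n2] : Fin 3 → Vt 3 → ℂ) v.2 v.1) (v, 0)) =
    avg (ndw 3 t) (dl k p0 q0 n0) := rfl
  have b1 : avg (ndw 3 t) (fun v => (fun v : Vt 4 =>
    (![dl k p0 q0 n0, dl k p1 q1 n1, dl k p2 q2 n2] : Fin 3 → Vt 3 → ℂ) v.2 v.1) (v, 1)) =
    avg (ndw 3 t) (dl k p1 q1 n1) := rfl
  have b2 : avg (ndw 3 t) (fun v => (fun v : Vt 4 =>
    (![dl k p0 q0 n0, dl k p1 q1 n1, dl k p2 q2 n2] : Fin 3 → Vt 3 → ℂ) v.2 v.1) (v, 2)) =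
    avg (ndw 3 t) (dl k p2 q2 n2) := rfl
  rw [b0, b1, b2] at hd
  rw [a0, a1, a2]
  have key : (2 ^ 28 / 2 ^ k : ℂ) * ((nlg 0 u : ℂ) * f0 + (nlg 1 u : ℂ) * f1 + (nlg 2 u : ℂ) * f2) -
      ((nlg 0 u : ℂ) * avg (ndw 3 t) (fun v => (⟨((n0 v 0 : ℤ) : ℝ), ((n0 v 1 : ℤ) : ℝ)⟩ : ℂ)) +
      (nlg 1 u : ℂ) * avg (ndw 3 t) (fun v => (⟨((n1 v 0 : ℤ) : ℝ), ((n1 v 1 : ℤ) : ℝ)⟩ : ℂ)) +
      (nlg 2 u : ℂ) * avg (ndw 3 t) (fun v => (⟨((n2 v 0 : ℤ) : ℝ), ((n2 v 1 : ℤ) : ℝ)⟩ : ℂ))) =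
      ((nlg 0 u : ℂ) * d0 + (nlg 1 u : ℂ) * d1 + (nlg 2 u : ℂ) * d2) / 2 ^ (34 + k) +
      ((nlg 0 u : ℂ) * e0 + (nlg 1 u : ℂ) * e1 + (nlg 2 u : ℂ) * e2) / 2 ^ (34 + k) +
      ((nlg 0 u : ℂ) * avg (ndw 3 t) (dl k p0 q0 n0) + (nlg 1 u : ℂ) * avg (ndw 3 t) (dl k p1 q1 n1) +
        (nlg 2 u : ℂ) * avg (ndw 3 t) (dl k p2 q2 n2)) := by
    linear_combination (nlg 0 u : ℂ) * k0 + (nlg 1 u : ℂ) * k1 + (nlg 2 u : ℂ) * k2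
  rw [key]
  have hl := nlg_leb hu0 hu1
  have hn : (0 : ℝ) < 2 ^ (34 + k) := by positivity
  have hT : ‖(nlg 0 u : ℂ) * d0 + (nlg 1 u : ℂ) * d1 + (nlg 2 u : ℂ) * d2‖ ≤
      5 / 4 * ((T : ℝ) / 2 ^ 34) := by
    have g0' : ‖d0‖ ≤ (T : ℝ) / 2 ^ 34 := g0.trans (by gcongr)
    have g1' : ‖d1‖ ≤ (T : ℝ) / 2 ^ 34 := g1.trans (by gcongr)
    have g2' : ‖d2‖ ≤ (T : ℝ) / 2 ^ 34 := g2.trans (by gcongr)
    have n3 : ‖(nlg 0 u : ℂ) * d0 + (nlg 1 u : ℂ) * d1 + (nlg 2 u : ℂ) * d2‖ ≤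
        |nlg 0 u| * ‖d0‖ + |nlg 1 u| * ‖d1‖ + |nlg 2 u| * ‖d2‖ := by
      refine (norm_add_le _ _).trans (add_le_add ((norm_add_le _ _).trans (add_le_add ?_ ?_)) ?_)
      · rw [norm_mul, Complex.norm_real, Real.norm_eq_abs]
      · rw [norm_mul, Complex.norm_real, Real.norm_eq_abs]
      · rw [norm_mul, Complex.norm_real, Real.norm_eq_abs]
    have m0 := mul_le_mul_of_nonneg_left g0' (abs_nonneg (nlg 0 u))
    have m1 := mul_le_mul_of_nonneg_left g1' (abs_nonneg (nlg 1 u))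
    have m2 := mul_le_mul_of_nonneg_left g2' (abs_nonneg (nlg 2 u))
    have hT0 : (0 : ℝ) ≤ (T : ℝ) / 2 ^ 34 := by positivity
    have m3 := mul_le_mul_of_nonneg_right hl hT0
    linarith
  have p1 : ‖((nlg 0 u : ℂ) * d0 + (nlg 1 u : ℂ) * d1 + (nlg 2 u : ℂ) * d2) / 2 ^ (34 + k)‖ ≤
      5 / 4 * ((T : ℝ) / 2 ^ (68 + k)) := by
    rw [norm_div, nD, ← tl_sc, ← mul_div_assoc]
    exact div_le_div_of_nonneg_right hT hn.le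
  have p2 : ‖((nlg 0 u : ℂ) * e0 + (nlg 1 u : ℂ) * e1 + (nlg 2 u : ℂ) * e2) / 2 ^ (34 + k)‖ ≤
      (C : ℝ) / 2 ^ (47 + k) + 1 / 100 := by
    rw [norm_div, nD]
    exact hc'
  refine (norm_add_le _ _).trans ?_
  have p3 := norm_add_le (((nlg 0 u : ℂ) * d0 + (nlg 1 u : ℂ) * d1 + (nlg 2 u : ℂ) * d2) / 2 ^ (34 + k))
    (((nlg 0 u : ℂ) * e0 + (nlg 1 u : ℂ) * e1 + (nlg 2 u : ℂ) * e2) / 2 ^ (34 + k))
  linarith

end N4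

/-- THREE PARAMETERS -/
theorem nv3_ok {c k : ℕ} (hc : c ≤ 16) (hk : k ≤ 20) {t : ℕ → ℝ} (hP : PT 3 t) {M : Mt}
    {X : W9} (h : RM c t M X) : NVL 3 lm3 t k M (nv3 X k) := by
  refine ⟨fun ho => ?_⟩
  obtain ⟨p, q, n, h1⟩ := N4.nd_all hc hk h ho
  refine ⟨fun u K => n K u, fun u => N4.leaf_ok h1 u, fun K hK => ?_⟩
  rw [N4.r_at X k K hK]
  exact N4.nd_err hP (h1 K hK)

/-- A FAMILY WHICH IS QUADRATIC IN THE PARAMETER -/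
theorem nv4_ok {c k : ℕ} (hc : c ≤ 16) (hk : k ≤ 20) {t : ℕ → ℝ} {u : ℝ} (hP : PT 4 (tu 3 t u))
    {M M0 M1 M2 : Mt} (e : M = (((1 - u) * (1 - 2 * u) : ℝ) : ℂ) • M0 +
      ((4 * u * (1 - u) : ℝ) : ℂ) • M1 + ((u * (2 * u - 1) : ℝ) : ℂ) • M2) {X Y Z : W9}
    (h0 : RM c t M0 X) (h1 : RM c t M1 Y) (h2 : RM c t M2 Z) :
    NVL 4 lm4 (tu 3 t u) k M (nv4 X Y Z k) := by
  refine ⟨fun ho => ?_⟩
  have ho' : andB (nv3 X k).ok (andB (nv3 Y k).ok (nv3 Z k).ok) = true := ho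
  obtain ⟨o0, o'⟩ := andB_t ho'
  obtain ⟨o1, o2⟩ := andB_t o'
  obtain ⟨p0, q0, n0, d0⟩ := N4.nd_all hc hk h0 o0
  obtain ⟨p1, q1, n1, d1⟩ := N4.nd_all hc hk h1 o1
  obtain ⟨p2, q2, n2, d2⟩ := N4.nd_all hc hk h2 o2
  refine ⟨fun v K => (![n0 K, n1 K, n2 K] : Fin 3 → Vt 3 → Fin 2 → ℤ) v.2 v.1, fun v => ?_,
    fun K hK => ?_⟩
  · obtain ⟨v, i⟩ := v
    fin_cases i
    · exact N4.leaf_ok d0 v
    · exact N4.leaf_ok d1 v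
    · exact N4.leaf_ok d2 v
  · rw [N4.r4_at X Y Z k K hK]
    have e1 : en M (K / 3) (K % 3) = (nlg 0 u : ℂ) * en M0 (K / 3) (K % 3) +
        (nlg 1 u : ℂ) * en M1 (K / 3) (K % 3) + (nlg 2 u : ℂ) * en M2 (K / 3) (K % 3) := by
      rw [e]
      rfl
    rw [e1]
    exact N4.nd_err4 hP (d0 K hK) (d1 K hK) (d2 K hK)

end Pool.Agent.Helper91.FU
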